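import Pool.Agent.KKM.Fin

/-!
# The exact Dirac threshold for tight Hamilton cycles in `k`-uniform hypergraphs, `n` large

The conjecture of Katona and Kierstead (1999) says that every `k`-uniform hypergraph on `n` vertices
(`k ≥ 2`, `n ≥ k`) in which every set of `k - 1` vertices lies in at least `n / 2` edges has a tight
Hamilton cycle.  We prove it for every `k ≥ 3` and all `n ≥ n₀(k)`.

Outline (all files `Pool/Agent/KK/*` and `Pool/Agent/Helper*_KK/*`).

* Dichotomy (`DicStmt`).  Either many pairs of vertices across every large bipartition can be
  exchanged in a positive fraction of the edges, or `H` is close to a parity hypergraph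
  `{e : |e ∩ A| ≡ p mod 2}`.
* Alpha (`AlphaStmt`).  A structure theorem (`StrStmt`) for the states `(f, t)`, `f` a
  `(k-1)`-tuple and `t` a time modulo `k`, of the walk along tight paths: either all states are
  connected robustly, or there is a set `X` of about `n / 2` vertices such that the components are
  given by the numbers of entries in `X`.  Crossing paths between the components (`CrsStmt`) are
  found with the exact condition `n / 2`; then connection, absorption by pairs of exchangeable
  vertices and covering by tight paths give the Hamilton cycle.
* Beta (`BetStmt`).  In the parity case the cycle is written down as a periodic word in the letters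
  `X`, complement of `X`, with a few gadgets (`GadStmt`) which change the type and absorb the
  atypical vertices, and a random bijection with the prescribed letters is corrected with the local
  lemma (`BulkStmt`).
-/

namespace Pool.Agent.Results.MP_747bc0_co.ExactThresholdLargeN

/-- For every `k ≥ 3` there is `n₀` such that for all `n ≥ n₀`: let `E` be the edge set of a
`k`-uniform hypergraph on a set `V` of `n` vertices such that for every set `S` of `k - 1` vertices
at least `n / 2` vertices `v ∉ S` satisfy `S ∪ {v} ∈ E`.  Then there is a cyclic ordering `σ` of `V`
in which every `k` cyclically consecutive vertices form an edge. -/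
theorem result (k : ℕ) (hk : 3 ≤ k) :
    ∃ n₀ : ℕ, ∀ n : ℕ, n₀ ≤ n →
      ∀ (V : Type) [Fintype V] [DecidableEq V], Fintype.card V = n →
        ∀ E : Set (Finset V), (∀ e ∈ E, e.card = k) →
          (∀ S : Finset V, S.card = k - 1 → n ≤ 2 * {v : V | v ∉ S ∧ insert v S ∈ E}.ncard) →
            ∃ σ : ZMod n ≃ V, ∀ i : ZMod n,
              (Finset.range k).image (fun j : ℕ => σ (i + (j : ZMod n))) ∈ E :=
  Pool.Agent.KK.H74.final Pool.Agent.KK.mainKK k hk

end Pool.Agent.Results.MP_747bc0_co.ExactThresholdLargeN
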