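import Pool.Agent.Helper88_Tight.Final

/-!
# Tight Hamilton cycles in `k`-uniform hypergraphs on about `2 k` vertices

The conjecture of Katona and Kierstead says that a `k`-uniform hypergraph on `n >= k` vertices in
which every set of `k - 1` vertices lies in at least `n / 2` edges has a tight Hamilton cycle.
We prove it for all `k >= 3` and all `n` with `k <= n <= 2 k + 1`, and also for all `n >= 2 k + 2`
which satisfy `8 (⌊n / 2⌋ + 1 - k) ^ 2 < k`, i.e. for `n` up to `2 k + c √k`.

A cyclic ordering of the vertex set `V` is a bijection `σ : ZMod n ≃ V`; its windows are the sets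
`{σ i, σ (i + 1), ..., σ (i + k - 1)}`.

Idea of the proof.  Let `d = ⌊n / 2⌋ + 1 - k`.  Every set of `k - 1` vertices has at most `d`
completions to a non-edge.  Take a random cyclic order and, for every position `f` at which a
window that is not an edge ends, exchange the vertices at the positions `f` and `f + 1`.  For two
position sets `A`, `A'` of size `k` the probability that both give non-edges is at most
`d / (n - k + 1) * d / (1 + max (i, n - k - i))`, `i = |A' \ A|`, so the expected number of windows
which are still non-edges is less than `1`.  For `n = 2 k` and `n = 2 k + 1` (`d = 1`) the expected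
number of non-edge windows is less than `2`, and a single bad window can be repaired at one of its
two ends.
-/

namespace Pool.Agent.Results.MP_747bc0_co.NearTwiceUniformity

/-- Let `k ≥ 3`, `k ≤ n` and `n ≤ 2 k + 1` or `8 (⌊n / 2⌋ + 1 - k) ^ 2 < k`.  Let `E` be the edge
set of a `k`-uniform hypergraph on the vertex set `V` with `n` elements such that for every set `S`
of `k - 1` vertices at least `n / 2` vertices `v ∉ S` satisfy `S ∪ {v} ∈ E`.  Then there is a cyclic
ordering `σ` of `V` in which every `k` cyclically consecutive vertices form an edge. -/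
theorem result (k n : ℕ) (hk : 3 ≤ k) (hkn : k ≤ n)
    (hr : n ≤ 2 * k + 1 ∨ 8 * (n / 2 + 1 - k) ^ 2 < k)
    (V : Type) [Fintype V] [DecidableEq V] (hV : Fintype.card V = n)
    (E : Set (Finset V)) (_hE : ∀ e ∈ E, e.card = k)
    (hδ : ∀ S : Finset V, S.card = k - 1 → n ≤ 2 * {v : V | v ∉ S ∧ insert v S ∈ E}.ncard) :
    ∃ σ : ZMod n ≃ V, ∀ i : ZMod n,
      (Finset.range k).image (fun j : ℕ => σ (i + (j : ZMod n))) ∈ E :=
  Helper88_Tight.main k n hk hkn hr V hV E hδ

end Pool.Agent.Results.MP_747bc0_co.NearTwiceUniformity
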